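import Pool.Agent.Helper61.BT.Goals
import Pool.Agent.Helper66.VF.TOA

/-!
# BT-TAB: the torso has finitely many orbits
-/

set_option autoImplicit false

namespace Pool.Agent.Helper66.BT

open Pool.Agent.Helper27.VF Pool.Agent.Helper66.VF Pool.Agent.Helper61.BT

universe u

theorem tab (hF : FacStmt.{u}) (hO : OrbStmt.{u}) (hR : FrbStmt.{u}) : TabStmt.{u} := by
  intro A W _ _ G G₀ w p hS k hk
  obtain ⟨-, o2, -, o4⟩ := hO A W G G₀ w p hS k hk
  obtain ⟨⟨R, hRd⟩, hball, -⟩ := hF A W G G₀ w p hS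
  obtain ⟨⟨𝓕, h𝓕f, h𝓕D, h𝓕⟩, -⟩ := hR A W G G₀ w p hS k hk
  have inv : ∀ g ∈ BB A G p k, ∀ x ∈ Kp A G p k, g • x ∈ Kp A G p k := by
    intro g hg x hx
    rcases hx with hx | ⟨d, hd, hx⟩
    · left
      intro d hd hgx
      refine hx (tr g⁻¹ d) (o4 g⁻¹ ((BB A G p k).inv_mem hg) d hd) ?_
      change (g⁻¹)⁻¹ • x ∈ d.2
      rwa [inv_inv]
    · right
      refine ⟨tr g d, o4 g hg d hd, ?_⟩
      rw [mem_sep_tr, inv_smul_smul]
      exact hx
  refine ⟨inv, ?_⟩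
  let F0 : Set W := (⋃ f ∈ 𝓕, ⋃ s ∈ sep f, {y | G₀.dist s y ≤ R}) ∪ {y | G₀.dist w y ≤ R}
  have hF0 : F0.Finite := by
    refine Set.Finite.union ?_ (hball w R)
    refine h𝓕f.biUnion fun f hf => ?_
    exact (h𝓕D hf).1.1.fin.biUnion fun s _ => hball s R
  refine ⟨F0 ∩ Kp A G p k, hF0.subset Set.inter_subset_left, Set.inter_subset_right, ?_⟩
  -- it is enough to move the point into `F0`
  have key : ∀ x ∈ Kp A G p k, ∀ g ∈ BB A G p k, g⁻¹ • x ∈ F0 →
      ∃ g ∈ BB A G p k, ∃ f ∈ F0 ∩ Kp A G p k, g • f = x := by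
    intro x hx g hg hgx
    exact ⟨g, hg, g⁻¹ • x, ⟨hgx, inv _ ((BB A G p k).inv_mem hg) x hx⟩, smul_inv_smul g x⟩
  -- points close to a separator
  have close : ∀ x ∈ Kp A G p k, ∀ d ∈ DD A G p k, ∀ s ∈ sep d, G₀.dist s x ≤ R →
      ∃ g ∈ BB A G p k, ∃ f ∈ F0 ∩ Kp A G p k, g • f = x := by
    intro x hx d hd s hs hsx
    obtain ⟨f, hf, g, hg, rfl⟩ := h𝓕 d hd
    refine key x hx g hg ?_
    left
    refine Set.mem_biUnion hf ?_
    refine Set.mem_biUnion (mem_sep_tr.1 hs) ?_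
    exact (dist_smul_le hS g⁻¹ s x).trans hsx
  intro x hx
  rcases hx with hx1 | ⟨d, hd, hxd⟩
  · have hx : x ∈ Kp A G p k := Or.inl hx1
    obtain ⟨a, ha⟩ := hRd x
    by_cases hab : a ∈ BB A G p k
    · refine key x hx a hab ?_
      right
      have h1 := dist_smul_le hS a⁻¹ (a • w) x
      rw [inv_smul_smul] at h1
      exact h1.trans ha
    · obtain ⟨d, hd, hda⟩ := o2 a hab
      have hdc : IsCut G d := hd.1.1
      have haw : a • w ∉ d.1 := by
        intro h1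
        have h2 := fact1 hS hdc h1
        exact (inn_snd hS hdc).1 hda h2
      obtain ⟨q, hq⟩ := (hS.conn.preconnected (a • w) x).exists_walk_length_eq_dist
      obtain ⟨s, hs, hsx⟩ := walk_meets hS.le hdc q haw (hx1 d hd)
      exact close x hx d hd s hs (by omega)
  · have hx : x ∈ Kp A G p k := Or.inr ⟨d, hd, hxd⟩
    refine close x hx d hd x hxd ?_
    simp

end Pool.Agent.Helper66.BT
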